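import Pool.Agent.helper1.VD.SpecA2

/-!
# Project VD (MP_07c750_an): row ABMP, beams are packets (assembly)
-/

set_option autoImplicit false

open scoped ContDiff Topology InnerProductSpace ComplexConjugate ENNReal
open MeasureTheory Filter Set

namespace Pool.Agent.VD

open Pool.Agent.VQ (CH)

noncomputable section

lemma ABMP_Rg {C C' e ζ ζ1 : ℝ} (h : Rg C e ζ ζ1) (hC : C' ≤ C) : Rg C' e ζ ζ1 := by
  obtain ⟨h1, h2, h3, h4, h5⟩ := h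
  refine ⟨h1, h2, h3, ?_, ?_⟩
  · have := mul_le_mul_of_nonneg_right hC h1
    linarith
  · have := mul_le_mul_of_nonneg_right hC (h2.le.trans h3)
    linarith

theorem ABMP_proof (hAWP1 : AWP1_stmt) (hAWP2 : AWP2_stmt) (hAWP3 : AWP3_stmt) (hAWPK : AWPK_stmt) : ABMP_stmt := by
  intro d Γ _ _ K k B r hK
  obtain ⟨C1, hC1, h1⟩ := hAWP1 d Γ K k B r hK
  obtain ⟨C2, hC2, h2⟩ := hAWP2 d Γ K k B r hK
  obtain ⟨C3, hC3, h3⟩ := hAWP3 d Γ K k B r hK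
  obtain ⟨C, hCd⟩ : ∃ C : ℝ, C = max C1 (max C2 C3) := ⟨_, rfl⟩
  have l1 : C1 ≤ C := by rw [hCd]; exact le_max_left _ _
  have l2 : C2 ≤ C := by rw [hCd]; exact (le_max_left _ _).trans (le_max_right _ _)
  have l3 : C3 ≤ C := by rw [hCd]; exact (le_max_right _ _).trans (le_max_right _ _)
  refine ⟨C, hC1.trans l1, ?_⟩
  intro ch Kd e ζ ζ1 ζ2 M hch hRg h12 hCζ2
  have hζ1 : 0 ≤ ζ1 := hRg.2.1.le.trans hRg.2.2.1
  have hζ2 : 0 ≤ ζ2 := hζ1.trans h12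
  have hC3ζ2 : C3 * ζ2 ≤ 1 := (mul_le_mul_of_nonneg_right l3 hζ2).trans hCζ2
  obtain ⟨R1, hR1, g1⟩ := h1 ch Kd e ζ ζ1 hch (ABMP_Rg hRg l1)
  obtain ⟨R2, hR2, g2⟩ := h2 ch Kd e ζ ζ1 hch (ABMP_Rg hRg l2)
  obtain ⟨R3, hR3, g3⟩ := h3 ch Kd e ζ ζ1 ζ2 M hch (ABMP_Rg hRg l3) h12 hC3ζ2
  refine ⟨max R1 (max R2 R3), hR1.trans (le_max_left _ _), ?_⟩
  intro R t G Φ p Y0 P0 hR hOK hp hE ht hL
  have k1 : R1 ≤ R := (le_max_left _ _).trans hR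
  have k2 : R2 ≤ R := ((le_max_left _ _).trans (le_max_right _ _)).trans hR
  have k3 : R3 ≤ R := ((le_max_right _ _).trans (le_max_right _ _)).trans hR
  have hR1' : 1 ≤ R := hR1.trans k1
  have hRpos : 0 < R := by linarith
  obtain ⟨a1, a2, a3⟩ := g1 R t G Φ p Y0 P0 k1 hOK hp hE ht hL
  have b1 := g2 R t G Φ p Y0 P0 k2 hOK hp hE ht hL
  obtain ⟨c1, c2⟩ := g3 R t G Φ p Y0 P0 k3 hOK hp hE ht hL
  have m1 : C1 * ζ1 ≤ C * ζ1 := mul_le_mul_of_nonneg_right l1 hζ1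
  have m2 : C2 * ζ1 ≤ C * ζ1 := mul_le_mul_of_nonneg_right l2 hζ1
  have m3 : C3 * ζ2 ≤ C * ζ2 := mul_le_mul_of_nonneg_right l3 hζ2
  have mono : ∀ (q : P d) (η η' m m' : ℝ) (f : V d → ℂ), η ≤ η' → 0 ≤ m → m ≤ m' → Pk Kd η m R q f → Pk Kd η' m' R q f :=
    fun q => (hAWPK d Kd R q hR1').2.1
  have hpow : ∀ {a b : ℝ}, a ≤ b → R ^ a ≤ R ^ b := fun h => Real.rpow_le_rpow_of_exponent_le hR1' h
  have hpos : ∀ a : ℝ, 0 ≤ R ^ a := fun a => Real.rpow_nonneg hRpos.le a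
  refine ⟨mono _ _ _ _ _ _ m1 (hpos _) (hpow m1) a1, mono _ _ _ _ _ _ m2 (hpos _) (hpow (by linarith)) b1,
    mono _ _ _ _ _ _ m1 (hpos _) (hpow (by linarith)) a2, mono _ _ _ _ _ _ m3 (hpos _) le_rfl c1, mono _ _ _ _ _ _ m3 (hpos _) le_rfl c2, fun w => ?_⟩
  exact (a3 w).trans (mul_le_mul_of_nonneg_right l1 (norm_nonneg _))

end

end Pool.Agent.VD
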