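import Pool.Agent.helper47.VD.SpecA1

/-!
# Project VD (MP_07c750_an): row AMYS, measure theory on the index set
-/

set_option autoImplicit false

open scoped ContDiff Topology InnerProductSpace ComplexConjugate ENNReal
open MeasureTheory Filter Set

namespace Pool.Agent.VD

noncomputable section

lemma AMYS_meas {d : ℕ} {Γ : Type} [Countable Γ] {α : Type} [MeasurableSpace α] (f : YS Γ d → α)
    (hf : ∀ γ : Γ, Measurable fun p : P d => f (γ, p)) : Measurable f := by
  let _ : MeasurableSpace Γ := ⊤
  have : MeasurableSingletonClass Γ := ⟨fun _ => trivial⟩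
  have h : @Measurable (Γ × P d) α Prod.instMeasurableSpace _ (fun x => f x) := by
    refine measurable_from_prod_countable_right fun γ => ?_
    exact hf γ
  exact h

lemma AMYS_meas2 {d : ℕ} {Γ : Type} [Countable Γ] {α : Type} [MeasurableSpace α] (f : YS Γ d → V d → α)
    (hf : ∀ γ : Γ, Measurable fun q : P d × V d => f (γ, q.1) q.2) : Measurable (Function.uncurry f) := by
  let _ : MeasurableSpace Γ := ⊤
  have : MeasurableSingletonClass Γ := ⟨fun _ => trivial⟩
  have h : @Measurable (Γ × (P d × V d)) α Prod.instMeasurableSpace _ (fun x => f (x.1, x.2.1) x.2.2) := by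
    refine measurable_from_prod_countable_right fun γ => ?_
    exact hf γ
  have h2 : @Measurable ((Γ × P d) × V d) (Γ × (P d × V d)) _ _ (fun x => (x.1.1, (x.1.2, x.2))) := by
    fun_prop
  exact h.comp h2

lemma AMYS_DT {d : ℕ} {Γ : Type} (T : Set Γ) : MeasurableSet (DT d T) := by
  let _ : MeasurableSpace Γ := ⊤
  have h : @Measurable (Γ × P d) Γ _ _ Prod.fst := measurable_fst
  have h2 : MeasurableSet T := trivial
  exact h h2

lemma AMYS_lint {d : ℕ} {Γ : Type} [Countable Γ] (f : YS Γ d → ENNReal) (hf : Measurable f) :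
    ∫⁻ y, f y ∂mY Γ d = ∑' γ : Γ, ∫⁻ p : P d, f (γ, p) := by
  let _ : MeasurableSpace Γ := ⊤
  have : MeasurableSingletonClass Γ := ⟨fun _ => trivial⟩
  have h1 : ∫⁻ y, f y ∂mY Γ d = ∫⁻ y : Γ × P d, f y ∂((Measure.count : Measure Γ).prod (volume : Measure (P d))) := rfl
  have h2 : @Measurable (Γ × P d) ENNReal Prod.instMeasurableSpace _ (fun x => f x) := hf
  rw [h1, lintegral_prod _ h2.aemeasurable, lintegral_count]

lemma AMYS_lintT {d : ℕ} {Γ : Type} [Countable Γ] (T : Set Γ) (f : YS Γ d → ENNReal) (hf : Measurable f) :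
    ∫⁻ y in DT d T, f y ∂mY Γ d = ∑' γ : T, ∫⁻ p : P d, f ((γ : Γ), p) := by
  classical
  rw [← lintegral_indicator (AMYS_DT T), AMYS_lint _ (hf.indicator (AMYS_DT T))]
  rw [tsum_subtype T (fun γ : Γ => ∫⁻ p : P d, f (γ, p))]
  refine tsum_congr fun γ => ?_
  by_cases hγ : γ ∈ T
  · rw [indicator_of_mem hγ]
    refine lintegral_congr fun p => ?_
    exact indicator_of_mem (show ((γ, p) : YS Γ d) ∈ DT d T from hγ) f
  · rw [indicator_of_notMem hγ]
    rw [← lintegral_zero (μ := (volume : Measure (P d)))]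
    refine lintegral_congr fun p => ?_
    exact indicator_of_notMem (show ((γ, p) : YS Γ d) ∉ DT d T from hγ) f

lemma AMYS_slice {d : ℕ} {Γ : Type} {α : Type} [MeasurableSpace α] (f : YS Γ d → α) (hf : Measurable f) (γ : Γ) :
    Measurable fun p : P d => f (γ, p) := by
  let _ : MeasurableSpace Γ := ⊤
  have h2 : @Measurable (Γ × P d) α Prod.instMeasurableSpace _ (fun x => f x) := hf
  exact h2.comp measurable_prodMk_left

theorem AMYS_proof : AMYS_stmt := by
  intro d Γ _ _
  refine ⟨fun α _ f hf => AMYS_meas f hf, fun α _ f hf => AMYS_meas2 f hf, fun T => AMYS_DT T, fun T f hf => AMYS_lintT T f hf, ?_, ?_⟩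
  · intro T f hf
    rw [AMYS_lintT T f hf]
    refine tsum_congr fun γ => ?_
    rw [Measure.volume_eq_prod, lintegral_prod _ (AMYS_slice f hf _).aemeasurable]
  · intro f S hf hS hi
    let _ : MeasurableSpace Γ := ⊤
    have : MeasurableSingletonClass Γ := ⟨fun _ => trivial⟩
    have hz : ∀ γ : Γ, γ ∉ S → ∀ p : P d, f (γ, p) = 0 := by
      intro γ hγ p
      by_contra h
      exact hγ (hS _ h)
    have hI : Integrable f (mY Γ d) := by
      refine ⟨hf.aestronglyMeasurable, ?_⟩
      rw [hasFiniteIntegral_iff_enorm, AMYS_lint _ hf.enorm, tsum_eq_sum (s := S)]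
      · exact ENNReal.sum_lt_top.2 fun γ hγ => (hi γ hγ).2
      · intro γ hγ
        simp only [hz γ hγ, enorm_zero, lintegral_zero]
    refine ⟨hI, ?_⟩
    have hI2 : Integrable (fun x : Γ × P d => f x) ((Measure.count : Measure Γ).prod (volume : Measure (P d))) := hI
    have h1 : ∫ y, f y ∂mY Γ d = ∫ y : Γ × P d, f y ∂((Measure.count : Measure Γ).prod (volume : Measure (P d))) := rfl
    have hI3 := hI2.integral_prod_left
    rw [h1, integral_prod _ hI2, ← setIntegral_eq_integral_of_forall_compl_eq_zero (s := (S : Set Γ))]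
    · rw [setIntegral_finset]
      · refine Finset.sum_congr rfl fun γ _ => ?_
        rw [measureReal_def, Measure.count_singleton, ENNReal.toReal_one, one_smul]
      · exact hI3.integrableOn
    · intro γ hγ
      simp only [hz γ (by simpa using hγ), integral_zero]

end

end Pool.Agent.VD
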