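import Pool.Agent.helper47.VD.SpecA1b

/-!
# Project VD (MP_07c750_an): row AQSN, the norms of one packet
-/

set_option autoImplicit false

open scoped ContDiff Topology InnerProductSpace ComplexConjugate ENNReal
open MeasureTheory Filter Set

namespace Pool.Agent.VD

open Pool.Agent.VQ (CH)

noncomputable section

lemma AQSN_norm {d : ℕ} (G : V d → V d →L[ℝ] V d) (ch : ℝ → ℝ) {ζ R c : ℝ} (hc : 0 ≤ c) (p : P d) (w : V d)
    (h1 : 0 ≤ b0 ch ζ R (w - p.1)) (h2 : 0 ≤ cR d ch ζ R) :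
    ‖(c : ℂ) * pkt G ch ζ R p w‖ = c * (cR d ch ζ R * b0 ch ζ R (w - p.1) / Real.sqrt (dens G w)) := by
  unfold pkt
  rw [norm_mul, norm_mul, Complex.norm_exp_ofReal_mul_I, mul_one, Complex.norm_real, Complex.norm_real, Real.norm_eq_abs, Real.norm_eq_abs,
    abs_of_nonneg hc, abs_of_nonneg (by positivity)]

theorem AQSN_proof (h1 : ABRD_stmt) (h2 : AMVI_stmt) (h3 : AHLD_stmt) (h4 : AQSA_stmt) : AQSN_stmt := by
  intro d Γ _ _ K k B r0 χ ch ζ hK hχ hch hζ hζ8
  obtain ⟨R1, hR1, hA⟩ := h1 d ch ζ hch hζ hζ8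
  obtain ⟨C, hC1, hC⟩ := h3 d Γ K k B r0 0
  obtain ⟨R2, hR2, hQ⟩ := h4 d Γ K k B r0 χ ch ζ hK hχ hch hζ hζ8
  obtain ⟨Q, hQdef⟩ : ∃ Q : ℝ, Q = Real.sqrt C * (2 * Real.pi) ^ ((d : ℝ) / 2) := ⟨_, rfl⟩
  have hQ0 : 0 ≤ Q := by rw [hQdef]; positivity
  refine ⟨max (max R1 R2) (Q ^ (1 / ζ)), le_trans hR1 ((le_max_left _ _).trans (le_max_left _ _)), ?_⟩
  intro R G hR hG
  have hRR1 : R1 ≤ R := ((le_max_left _ _).trans (le_max_left _ _)).trans hR
  have hRR2 : R2 ≤ R := ((le_max_right _ _).trans (le_max_left _ _)).trans hR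
  have hRR3 : Q ^ (1 / ζ) ≤ R := (le_max_right _ _).trans hR
  have hR1' : 1 ≤ R := hR1.trans hRR1
  have hRpos : 0 < R := by linarith
  have hQR : Q ≤ R ^ ζ := by
    have h5 : (Q ^ (1 / ζ)) ^ ζ ≤ R ^ ζ := Real.rpow_le_rpow (by positivity) hRR3 hζ.le
    rwa [← Real.rpow_mul hQ0, one_div, inv_mul_cancel₀ hζ.ne', Real.rpow_one] at h5
  obtain ⟨a1, a2, a3, a4, a5, a6, a7, a8, a9, a10, a11⟩ := hA R hRR1
  obtain ⟨-, c2, c3, -, c5, c6, -, c8, -⟩ := h2 d Γ K k B G hK hG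
  obtain ⟨-, -, -, -, hC'⟩ := hC G hK hG
  obtain ⟨q1, q2, q3, -⟩ := hQ R G hRR2 hG
  have hfin : IsFiniteMeasureOnCompacts (mv G) := ⟨fun S hS => c5 S hS⟩
  have hsq : ∀ w : V d, 0 < Real.sqrt (dens G w) := fun w => Real.sqrt_pos.2 (c3 w)
  -- the function in the coordinate
  have hcont : ∀ (c : ℂ) (p : P d), Continuous fun w : V d => c * pkt G ch ζ R p w := by
    intro c p
    have e1 : Continuous fun w : V d => b0 ch ζ R (w - p.1) := a1.continuous.comp (by fun_prop)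
    have e2 : Continuous fun w : V d => Real.sqrt (dens G w) := Real.continuous_sqrt.comp c2.continuous
    have e3 : Continuous fun w : V d => cR d ch ζ R * b0 ch ζ R (w - p.1) / Real.sqrt (dens G w) :=
      (e1.const_mul _).div e2 fun w => (hsq w).ne'
    unfold pkt
    refine continuous_const.mul ((Complex.continuous_ofReal.comp e3).mul (Complex.continuous_exp.comp ?_))
    exact (Complex.continuous_ofReal.comp (by fun_prop)).mul continuous_const
  have hb0 : ∀ v : V d, 1 < ‖v‖ → b0 ch ζ R v = 0 := by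
    intro v hv
    by_contra h
    have := (a2 v h).trans a4
    linarith
  have hsupp : ∀ (c : ℂ) (p : P d) (w : V d), w ∉ Metric.closedBall p.1 1 → c * pkt G ch ζ R p w = 0 := by
    intro c p w hw
    rw [Metric.mem_closedBall, not_le, dist_eq_norm] at hw
    unfold pkt
    rw [hb0 _ hw]
    simp
  have hcs : ∀ (c : ℂ) (p : P d), HasCompactSupport fun w : V d => c * pkt G ch ζ R p w := fun c p =>
    HasCompactSupport.intro (isCompact_closedBall p.1 1) (hsupp c p)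
  have hint : ∀ (c : ℂ) (p : P d), Integrable (fun w : V d => c * pkt G ch ζ R p w) (mv G) := fun c p =>
    (hcont c p).integrable_of_hasCompactSupport (hcs c p)
  have hmp : ∀ γ : Γ, MeasurePreserving (fun x : V d => γ⁻¹ • x) (mv G) (mv G) := fun γ => c6 γ⁻¹
  have hb0c : Continuous (b0 ch ζ R : V d → ℝ) := a1.continuous
  have hb0i : Integrable (b0 ch ζ R : V d → ℝ) := hb0c.integrable_of_hasCompactSupport
    (HasCompactSupport.intro (isCompact_closedBall 0 1) fun v hv => hb0 v (by simpa using hv))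
  refine ⟨fun y => ?_, fun y => ?_, fun y => ?_⟩
  · exact ((hmp y.1).integrable_comp (hcont (χ y.2.1 : ℂ) y.2).aestronglyMeasurable).2 (hint _ _)
  · have e1 : ∫ z, ‖Gp G χ ch ζ R y z‖ ^ 2 ∂mv G = ∫ w, ‖(χ y.2.1 : ℂ) * pkt G ch ζ R y.2 w‖ ^ 2 ∂mv G := by
      have e2 : Continuous fun w : V d => ‖(χ y.2.1 : ℂ) * pkt G ch ζ R y.2 w‖ ^ 2 := (hcont _ _).norm.pow 2
      have e3 := integral_map (μ := mv G) (hmp y.1).measurable.aemeasurable
        (f := fun w : V d => ‖(χ y.2.1 : ℂ) * pkt G ch ζ R y.2 w‖ ^ 2) e2.aestronglyMeasurable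
      rw [(hmp y.1).map_eq] at e3
      rw [e3]
      rfl
    rw [e1, c8 ℝ]
    have e2 : ∀ w : V d, dens G w • ‖(χ y.2.1 : ℂ) * pkt G ch ζ R y.2 w‖ ^ 2 = (χ y.2.1 ^ 2 * cR d ch ζ R ^ 2) * b0 ch ζ R (w - y.2.1) ^ 2 := by
      intro w
      rw [AQSN_norm G ch (hχ.bd _).1 y.2 w (a3 _).1 a9.le, smul_eq_mul, mul_pow, div_pow, Real.sq_sqrt (c3 w).le]
      have := (c3 w).ne'
      field_simp
    simp_rw [e2]
    rw [integral_const_mul, integral_sub_right_eq_self (fun v : V d => b0 ch ζ R v ^ 2)]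
    have e3 : ∫ v : V d, b0 ch ζ R v ^ 2 = bR d ch ζ R := rfl
    rw [e3, mul_assoc, a8]
  · have e1 : ∫ z, ‖Gp G χ ch ζ R y z‖ ∂mv G = ∫ w, ‖(χ y.2.1 : ℂ) * pkt G ch ζ R y.2 w‖ ∂mv G := by
      have e2 : Continuous fun w : V d => ‖(χ y.2.1 : ℂ) * pkt G ch ζ R y.2 w‖ := (hcont _ _).norm
      have e3 := integral_map (μ := mv G) (hmp y.1).measurable.aemeasurable
        (f := fun w : V d => ‖(χ y.2.1 : ℂ) * pkt G ch ζ R y.2 w‖) e2.aestronglyMeasurable
      rw [(hmp y.1).map_eq] at e3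
      rw [e3]
      rfl
    rw [e1, c8 ℝ]
    have e2 : ∀ w : V d, dens G w • ‖(χ y.2.1 : ℂ) * pkt G ch ζ R y.2 w‖ ≤ (R ^ (3 * (d : ℝ) / 4) * Real.sqrt C) * b0 ch ζ R (w - y.2.1) := by
      intro w
      rw [AQSN_norm G ch (hχ.bd _).1 y.2 w (a3 _).1 a9.le, smul_eq_mul]
      have hb := (a3 (w - y.2.1)).1
      by_cases hx : χ y.2.1 = 0
      · rw [hx, zero_mul, mul_zero]
        positivity
      by_cases hw : b0 ch ζ R (w - y.2.1) = 0
      · rw [hw]
        simp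
      have hxn := hχ.supp _ hx
      have hwn := (a2 _ hw).trans a4
      have hwr : ‖w‖ ≤ r0 := by
        have : w = (w - y.2.1) + y.2.1 := by abel
        rw [this]
        refine (norm_add_le _ _).trans ?_
        linarith
      have hd : dens G w ≤ C := by
        have := ((hC' w hwr).2.1 0 le_rfl).1
        rw [norm_iteratedFDeriv_zero, Real.norm_eq_abs] at this
        exact (le_abs_self _).trans this
      have e3 : dens G w * (χ y.2.1 * (cR d ch ζ R * b0 ch ζ R (w - y.2.1) / Real.sqrt (dens G w))) =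
          χ y.2.1 * (cR d ch ζ R * Real.sqrt (dens G w)) * b0 ch ζ R (w - y.2.1) := by
        have e4 : dens G w = Real.sqrt (dens G w) * Real.sqrt (dens G w) := (Real.mul_self_sqrt (c3 w).le).symm
        have e5 := (hsq w).ne'
        nth_rewrite 1 [e4]
        field_simp
      rw [e3]
      refine mul_le_mul_of_nonneg_right ?_ hb
      have e6 : cR d ch ζ R * Real.sqrt (dens G w) ≤ R ^ (3 * (d : ℝ) / 4) * Real.sqrt C :=
        mul_le_mul a10 (Real.sqrt_le_sqrt hd) (Real.sqrt_nonneg _) (by positivity)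
      have e7 : 0 ≤ cR d ch ζ R * Real.sqrt (dens G w) := by positivity
      calc χ y.2.1 * (cR d ch ζ R * Real.sqrt (dens G w)) ≤ 1 * (cR d ch ζ R * Real.sqrt (dens G w)) :=
            mul_le_mul_of_nonneg_right (hχ.bd _).2 e7
        _ ≤ _ := by rw [one_mul]; exact e6
    have e8 : ∫ w : V d, dens G w • ‖(χ y.2.1 : ℂ) * pkt G ch ζ R y.2 w‖ ≤
        ∫ w : V d, (R ^ (3 * (d : ℝ) / 4) * Real.sqrt C) * b0 ch ζ R (w - y.2.1) := by
      refine integral_mono_of_nonneg (Eventually.of_forall fun w => ?_) ((hb0i.comp_sub_right y.2.1).const_mul _) (Eventually.of_forall e2)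
      have := (c3 w).le
      positivity
    refine e8.trans ?_
    rw [integral_const_mul, integral_sub_right_eq_self (fun v : V d => b0 ch ζ R v)]
    have e9 : (2 * Real.pi / R) ^ ((d : ℝ) / 2) = (2 * Real.pi) ^ ((d : ℝ) / 2) * R ^ (-((d : ℝ) / 2)) := by
      rw [Real.div_rpow (by positivity) hRpos.le, Real.rpow_neg hRpos.le, div_eq_mul_inv]
    calc R ^ (3 * (d : ℝ) / 4) * Real.sqrt C * ∫ v : V d, b0 ch ζ R v
        ≤ R ^ (3 * (d : ℝ) / 4) * Real.sqrt C * (2 * Real.pi / R) ^ ((d : ℝ) / 2) := mul_le_mul_of_nonneg_left a11 (by positivity)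
      _ = (R ^ (3 * (d : ℝ) / 4) * R ^ (-((d : ℝ) / 2))) * Q := by rw [e9, hQdef]; ring
      _ = R ^ ((d : ℝ) / 4) * Q := by
        rw [← Real.rpow_add hRpos]
        congr 2
        ring
      _ ≤ R ^ ((d : ℝ) / 4) * R ^ ζ := mul_le_mul_of_nonneg_left hQR (by positivity)
      _ = R ^ ((d : ℝ) / 4 + ζ) := (Real.rpow_add hRpos _ _).symm

end

end Pool.Agent.VD
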