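import Pool.Agent.helper84.VD.SpecB2

/-!
# Row vd:SC1 (MP_07c750): calculus of maps with a Lipschitz derivative
-/

set_option autoImplicit false

open scoped ContDiff Topology InnerProductSpace ENNReal
open MeasureTheory Filter Set

namespace Pool.Agent.VD

noncomputable section

theorem SC1_a {A B : Type} [NormedAddCommGroup A] [NormedSpace ℝ A] [NormedAddCommGroup B] [NormedSpace ℝ B] (M r : ℝ) (a0 : A)
    (hM : 1 ≤ M) (f : A → B) (h : C11 M r a0 f) (a b : A) (ha : ‖a - a0‖ ≤ r) (hb : ‖b - a0‖ ≤ r) :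
    ‖f a - f b‖ ≤ M * ‖a - b‖ ∧ ‖f a - f b - fderiv ℝ f b (a - b)‖ ≤ M * ‖a - b‖ ^ 2 := by
  have hball : ∀ x : A, x ∈ Metric.closedBall a0 r ↔ ‖x - a0‖ ≤ r := fun x => by
    rw [Metric.mem_closedBall, dist_eq_norm]
  have hconv : Convex ℝ (Metric.closedBall a0 r) := convex_closedBall a0 r
  have h1 := hconv.norm_image_sub_le_of_norm_fderiv_le (𝕜 := ℝ) (f := f) (C := M) (x := b) (y := a)
    (fun x hx => h.dif x ((hball x).1 hx)) (fun x hx => h.bd x ((hball x).1 hx)) ((hball b).2 hb) ((hball a).2 ha)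
  refine ⟨h1, ?_⟩
  have hseg : segment ℝ b a ⊆ Metric.closedBall a0 r := hconv.segment_subset ((hball b).2 hb) ((hball a).2 ha)
  have h2 := (convex_segment b a).norm_image_sub_le_of_norm_fderiv_le' (𝕜 := ℝ) (f := f) (φ := fderiv ℝ f b) (C := M * ‖a - b‖)
    (x := b) (y := a) (fun x hx => h.dif x ((hball x).1 (hseg hx))) (fun x hx => by
      refine (h.lip x b ((hball x).1 (hseg hx)) hb).trans ?_
      refine mul_le_mul_of_nonneg_left ?_ (by linarith)
      exact norm_sub_le_of_mem_segment hx) (left_mem_segment ℝ b a) (right_mem_segment ℝ b a)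
  calc _ ≤ M * ‖a - b‖ * ‖a - b‖ := h2
    _ = M * ‖a - b‖ ^ 2 := by ring

theorem SC1_proof : SC1_stmt := by
  intro A B B' _ _ _ _ _ _ M r a0 hM hr
  have hM0 : 0 < M := by linarith
  refine ⟨fun f h a b ha hb => SC1_a M r a0 hM f h a b ha hb, ?_, ?_, ?_, ?_⟩
  · intro f g hf hg
    have hrM : r / M ≤ r := div_le_self hr.le hM
    have hmap : ∀ a, ‖a - a0‖ ≤ r / M → ‖f a - f a0‖ ≤ r := by
      intro a ha
      have h0 : ‖a0 - a0‖ ≤ r := by
        rw [sub_self, norm_zero]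
        exact hr.le
      have h1 := (SC1_a M r a0 hM f hf a a0 (ha.trans hrM) h0).1
      refine h1.trans ?_
      calc M * ‖a - a0‖ ≤ M * (r / M) := mul_le_mul_of_nonneg_left ha hM0.le
        _ = r := by field_simp
    have hfd : ∀ a, ‖a - a0‖ ≤ r / M → fderiv ℝ (fun a => g (f a)) a = (fderiv ℝ g (f a)).comp (fderiv ℝ f a) := by
      intro a ha
      exact fderiv_comp a (hg.dif _ (hmap a ha)) (hf.dif a (ha.trans hrM))
    refine ⟨?_, ?_, ?_⟩
    · intro a ha
      exact (hg.dif _ (hmap a ha)).comp a (hf.dif a (ha.trans hrM))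
    · intro a ha
      rw [hfd a ha]
      have h1 := hg.bd _ (hmap a ha)
      have h2 := hf.bd a (ha.trans hrM)
      have h3 := ContinuousLinearMap.opNorm_comp_le (fderiv ℝ g (f a)) (fderiv ℝ f a)
      have h4 : ‖fderiv ℝ g (f a)‖ * ‖fderiv ℝ f a‖ ≤ M * M := mul_le_mul h1 h2 (norm_nonneg _) hM0.le
      nlinarith [pow_pos hM0 3]
    · intro a b ha hb
      rw [hfd a ha, hfd b hb]
      have h1 := hg.lip _ _ (hmap a ha) (hmap b hb)
      have h2 := (SC1_a M r a0 hM f hf a b (ha.trans hrM) (hb.trans hrM)).1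
      have h3 := hf.bd a (ha.trans hrM)
      have h4 := hg.bd _ (hmap b hb)
      have h5 := hf.lip a b (ha.trans hrM) (hb.trans hrM)
      have h6 : (fderiv ℝ g (f a)).comp (fderiv ℝ f a) - (fderiv ℝ g (f b)).comp (fderiv ℝ f b) =
          (fderiv ℝ g (f a) - fderiv ℝ g (f b)).comp (fderiv ℝ f a) + (fderiv ℝ g (f b)).comp (fderiv ℝ f a - fderiv ℝ f b) := by
        rw [ContinuousLinearMap.sub_comp, ContinuousLinearMap.comp_sub]
        abel
      rw [h6]
      refine (norm_add_le _ _).trans ?_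
      have h7 := ContinuousLinearMap.opNorm_comp_le (fderiv ℝ g (f a) - fderiv ℝ g (f b)) (fderiv ℝ f a)
      have h8 := ContinuousLinearMap.opNorm_comp_le (fderiv ℝ g (f b)) (fderiv ℝ f a - fderiv ℝ f b)
      have h9 : ‖fderiv ℝ g (f a) - fderiv ℝ g (f b)‖ * ‖fderiv ℝ f a‖ ≤ M * (M * ‖a - b‖) * M :=
        mul_le_mul (h1.trans (mul_le_mul_of_nonneg_left h2 hM0.le)) h3 (norm_nonneg _) (by positivity)
      have h10 : ‖fderiv ℝ g (f b)‖ * ‖fderiv ℝ f a - fderiv ℝ f b‖ ≤ M * (M * ‖a - b‖) :=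
        mul_le_mul h4 h5 (norm_nonneg _) hM0.le
      have h11 : M * (M * ‖a - b‖) * M + M * (M * ‖a - b‖) = (M ^ 3 + M ^ 2) * ‖a - b‖ := by ring
      linarith
  · intro f g hf hg
    have hfd : ∀ a, ‖a - a0‖ ≤ r → fderiv ℝ (fun a => (f a, g a)) a = (fderiv ℝ f a).prod (fderiv ℝ g a) := by
      intro a ha
      exact ((hf.dif a ha).hasFDerivAt.prodMk (hg.dif a ha).hasFDerivAt).fderiv
    refine ⟨?_, ?_, ?_⟩
    · intro a ha
      exact (hf.dif a ha).prodMk (hg.dif a ha)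
    · intro a ha
      rw [hfd a ha, ContinuousLinearMap.opNorm_prod, Prod.norm_def]
      exact max_le (hf.bd a ha) (hg.bd a ha)
    · intro a b ha hb
      rw [hfd a ha, hfd b hb]
      have h1 : (fderiv ℝ f a).prod (fderiv ℝ g a) - (fderiv ℝ f b).prod (fderiv ℝ g b) =
          (fderiv ℝ f a - fderiv ℝ f b).prod (fderiv ℝ g a - fderiv ℝ g b) := by
        ext x <;> simp
      rw [h1, ContinuousLinearMap.opNorm_prod, Prod.norm_def]
      exact max_le (hf.lip a b ha hb) (hg.lip a b ha hb)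
  · intro L b hL
    have hfd : ∀ a, HasFDerivAt (fun a => L a + b) L a := fun a => L.hasFDerivAt.add_const b
    refine ⟨fun a _ => (hfd a).differentiableAt, fun a _ => ?_, fun a c _ _ => ?_⟩
    · rw [(hfd a).fderiv]
      exact hL
    · rw [(hfd a).fderiv, (hfd c).fderiv, sub_self, norm_zero]
      positivity
  · intro f M' r' hf hMM hrr
    refine ⟨fun a ha => hf.dif a (ha.trans hrr), fun a ha => (hf.bd a (ha.trans hrr)).trans hMM, fun a b ha hb => ?_⟩
    exact (hf.lip a b (ha.trans hrr) (hb.trans hrr)).trans (mul_le_mul_of_nonneg_right hMM (norm_nonneg _))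

end

end Pool.Agent.VD
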