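import Pool.Agent.helper84.VD.SpecB2

/-!
# Row vd:STH (MP_07c750): the flow box
-/

set_option autoImplicit false

open scoped ContDiff Topology InnerProductSpace ENNReal
open MeasureTheory Filter Set

namespace Pool.Agent.VD

noncomputable section

theorem STH_phi {d : ℕ} (Γ : Type) [Group Γ] [MulAction Γ (V d)] (K : Set (V d)) (C : ℝ) (G : V d → V d →L[ℝ] V d)
    (Φ : ℝ → P d → P d) (D : P d → P d → ℝ) (h : GEO Γ K C G Φ D) (z : P d) (hz : z ∈ SK K G) :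
    C11 C (1 / C) ((0 : ℝ), z) (fun q : ℝ × P d => Φ q.1 q.2) ∧
    ∀ (σ : ℝ) (w : P d), fderiv ℝ (fun q : ℝ × P d => Φ q.1 q.2) (0, z) (σ, w) = σ • XH G z + w := by
  have hC0 : 0 < C := by linarith [h.C1]
  have hMM : (MM Φ (1 : Γ) : ℝ × P d → P d) = fun q => Φ q.1 q.2 := by
    funext q
    exact h.l1 _
  have h0 : MM Φ (1 : Γ) ((0 : ℝ), z) = z := by
    rw [hMM]
    exact h.fl.zero z
  have hbm : ∀ q q' : ℝ × P d, ‖q - (0, z)‖ ≤ 1 / C → ‖q' - (0, z)‖ ≤ 1 / C →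
      ‖fderiv ℝ (fun q : ℝ × P d => Φ q.1 q.2) q‖ ≤ C ∧
      ‖fderiv ℝ (fun q : ℝ × P d => Φ q.1 q.2) q - fderiv ℝ (fun q : ℝ × P d => Φ q.1 q.2) q'‖ ≤ C * ‖q - q'‖ := by
    intro q q' hq hq'
    have h1 := h.bm 1 z hz z hz 0 (by rw [abs_zero]; norm_num) (by
      rw [h0, sub_self, norm_zero]
      positivity) q q' hq hq'
    rw [hMM] at h1
    exact h1
  have hdif : Differentiable ℝ (fun q : ℝ × P d => Φ q.1 q.2) := by
    have h1 := (h.dif 1).differentiable (by simp)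
    rw [hMM] at h1
    exact h1
  refine ⟨⟨fun q _ => hdif q, fun q hq => (hbm q q hq hq).1, fun q q' hq hq' => (hbm q q' hq hq').2⟩, ?_⟩
  intro σ w
  have h1 : fderiv ℝ (fun q : ℝ × P d => Φ q.1 q.2) (0, z) (1, 0) = XH G z := by
    have h2 := h.mx 1 0 z
    rw [h0, hMM] at h2
    exact h2
  have h2 : fderiv ℝ (fun q : ℝ × P d => Φ q.1 q.2) (0, z) (0, w) = w := by
    have h3 : HasFDerivAt (fun p : P d => (fun q : ℝ × P d => Φ q.1 q.2) ((0 : ℝ), p))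
        ((fderiv ℝ (fun q : ℝ × P d => Φ q.1 q.2) (0, z)).comp (ContinuousLinearMap.inr ℝ ℝ (P d))) z :=
      HasFDerivAt.comp z (hdif (0, z)).hasFDerivAt (hasFDerivAt_prodMk_right (𝕜 := ℝ) (0 : ℝ) z)
    have h4 : (fun p : P d => (fun q : ℝ × P d => Φ q.1 q.2) ((0 : ℝ), p)) = fun p => p := by
      funext p
      exact h.fl.zero p
    rw [h4] at h3
    have h5 := h3.unique (hasFDerivAt_id z)
    have h6 := congrArg (fun L : P d →L[ℝ] P d => L w) h5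
    exact h6
  have h3 : ((σ, w) : ℝ × P d) = σ • ((1 : ℝ), (0 : P d)) + ((0 : ℝ), w) := by
    ext <;> simp
  rw [h3, map_add, map_smul, h1, h2]

/-- the map `(s, a) ↦ Φ_s (κ a)` -/
theorem STH_theta (hSC1 : SC1_stmt) {m : ℕ} (Γ : Type) [Group Γ] [MulAction Γ (V (m + 1))] (K : Set (V (m + 1))) (C C' r : ℝ)
    (hC : 1 ≤ C) (hC' : 1 ≤ C') (hr : 0 < r)
    (G : V (m + 1) → V (m + 1) →L[ℝ] V (m + 1)) (Φ : ℝ → P (m + 1) → P (m + 1)) (D : P (m + 1) → P (m + 1) → ℝ)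
    (h : GEO Γ K C G Φ D) (z : P (m + 1)) (hz : z ∈ SK K G) (κ : Z m → P (m + 1)) (hκ : C11 C' r 0 κ) (hκ0 : κ 0 = z)
    (M2 r2 M3 : ℝ) (h1 : 1 ≤ M2) (h2 : 0 < r2) (h3 : C ≤ M2) (h4 : C' ≤ M2) (h5 : r2 ≤ r) (h6 : r2 ≤ 1 / C) (h7 : M3 = M2 ^ 3 + M2 ^ 2) :
    C11 (M3 ^ 3 + M3 ^ 2) (r2 / M2 / M3) ((0 : ℝ), (0 : Z m)) (fun q : ℝ × Z m => Φ q.1 (κ q.2)) ∧
    ∀ (σ : ℝ) (v : Z m), fderiv ℝ (fun q : ℝ × Z m => Φ q.1 (κ q.2)) (0, 0) (σ, v) = σ • XH G z + fderiv ℝ κ 0 v := by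
  have hC0 : 0 < C := by linarith
  have hp2 : 1 ≤ M2 ^ 2 := one_le_pow₀ h1
  have hp3 : 1 ≤ M2 ^ 3 := one_le_pow₀ h1
  have hM31 : 1 ≤ M3 := by linarith
  have hM23 : M2 ≤ M3 := by nlinarith
  have hM20 : 0 < M2 := by linarith
  have hM30 : 0 < M3 := by linarith
  have hr3 : 0 < r2 / M2 := by positivity
  have hr32 : r2 / M2 ≤ r2 := div_le_self h2.le h1
  obtain ⟨hΦ, hΦd⟩ := STH_phi Γ K C G Φ D h z hz
  -- the second factor
  have a1 : C11 M2 r2 ((0 : ℝ), (0 : Z m)) (fun q : ℝ × Z m => q.2) := by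
    have := (hSC1 (ℝ × Z m) (Z m) (Z m) M2 r2 ((0 : ℝ), (0 : Z m)) h1 h2).2.2.2.1 (ContinuousLinearMap.snd ℝ ℝ (Z m)) 0
      ((ContinuousLinearMap.norm_snd_le ℝ ℝ (Z m)).trans h1)
    simpa using this
  have a2 : C11 M2 r2 (0 : Z m) κ := (hSC1 (Z m) (P (m + 1)) (P (m + 1)) C' r (0 : Z m) hC' hr).2.2.2.2 κ M2 r2 hκ h4 h5
  have a3 : C11 M3 (r2 / M2) ((0 : ℝ), (0 : Z m)) (fun q : ℝ × Z m => κ q.2) := by
    rw [h7]
    exact (hSC1 (ℝ × Z m) (Z m) (P (m + 1)) M2 r2 ((0 : ℝ), (0 : Z m)) h1 h2).2.1 (fun q : ℝ × Z m => q.2) κ a1 a2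
  have a4 : C11 M3 (r2 / M2) ((0 : ℝ), (0 : Z m)) (fun q : ℝ × Z m => q.1) := by
    have := (hSC1 (ℝ × Z m) ℝ ℝ M3 (r2 / M2) ((0 : ℝ), (0 : Z m)) hM31 hr3).2.2.2.1 (ContinuousLinearMap.fst ℝ ℝ (Z m)) 0
      ((ContinuousLinearMap.norm_fst_le ℝ ℝ (Z m)).trans hM31)
    simpa using this
  have a5 : C11 M3 (r2 / M2) ((0 : ℝ), (0 : Z m)) (fun q : ℝ × Z m => (q.1, κ q.2)) :=
    (hSC1 (ℝ × Z m) ℝ (P (m + 1)) M3 (r2 / M2) ((0 : ℝ), (0 : Z m)) hM31 hr3).2.2.1 (fun q : ℝ × Z m => q.1) (fun q : ℝ × Z m => κ q.2) a4 a3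
  have a6 : C11 M3 (r2 / M2) ((0 : ℝ), z) (fun q : ℝ × P (m + 1) => Φ q.1 q.2) :=
    (hSC1 (ℝ × P (m + 1)) (P (m + 1)) (P (m + 1)) C (1 / C) ((0 : ℝ), z) hC (by positivity)).2.2.2.2 _ M3 (r2 / M2) hΦ (h3.trans hM23) (hr32.trans h6)
  have a7 := (hSC1 (ℝ × Z m) (ℝ × P (m + 1)) (P (m + 1)) M3 (r2 / M2) ((0 : ℝ), (0 : Z m)) hM31 hr3).2.1
    (fun q : ℝ × Z m => (q.1, κ q.2)) (fun q : ℝ × P (m + 1) => Φ q.1 q.2) a5 (by
      simp only [hκ0]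
      exact a6)
  refine ⟨a7, fun σ v => ?_⟩
  have hκd : HasFDerivAt κ (fderiv ℝ κ 0) 0 := (hκ.dif 0 (by
    rw [sub_self, norm_zero]
    exact hr.le)).hasFDerivAt
  have b1 : HasFDerivAt (fun q : ℝ × Z m => (q.1, κ q.2))
      ((ContinuousLinearMap.fst ℝ ℝ (Z m)).prod ((fderiv ℝ κ 0).comp (ContinuousLinearMap.snd ℝ ℝ (Z m)))) ((0 : ℝ), (0 : Z m)) := by
    refine HasFDerivAt.prodMk hasFDerivAt_fst ?_
    exact HasFDerivAt.comp ((0 : ℝ), (0 : Z m)) hκd hasFDerivAt_snd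
  have b2 : HasFDerivAt (fun q : ℝ × P (m + 1) => Φ q.1 q.2) (fderiv ℝ (fun q : ℝ × P (m + 1) => Φ q.1 q.2) (0, z)) (0, κ 0) := by
    rw [hκ0]
    exact (hΦ.dif (0, z) (by
      rw [sub_self, norm_zero]
      positivity)).hasFDerivAt
  have b3 : HasFDerivAt (fun q : ℝ × Z m => Φ q.1 (κ q.2)) ((fderiv ℝ (fun q : ℝ × P (m + 1) => Φ q.1 q.2) (0, z)).comp
      ((ContinuousLinearMap.fst ℝ ℝ (Z m)).prod ((fderiv ℝ κ 0).comp (ContinuousLinearMap.snd ℝ ℝ (Z m))))) ((0 : ℝ), (0 : Z m)) :=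
    HasFDerivAt.comp (g := fun q : ℝ × P (m + 1) => Φ q.1 q.2) (f := fun q : ℝ × Z m => (q.1, κ q.2)) ((0 : ℝ), (0 : Z m)) b2 b1
  rw [b3.fderiv]
  have b4 := hΦd σ (fderiv ℝ κ 0 v)
  exact b4

/-- the normal coordinates as a continuous linear map -/
theorem STH_N {m : ℕ} (M1 C : ℝ) (hM1 : 1 ≤ M1) (hC : 1 ≤ C) (G : V (m + 1) → V (m + 1) →L[ℝ] V (m + 1)) (z : P (m + 1)) (e : W m →L[ℝ] V (m + 1))
    (hlin : IsLinearMap ℝ (LL G z e)) (hb : ∀ v, ‖LL G z e v‖ ≤ M1 * ‖v‖) (hz2 : ‖z.2‖ ≤ C) :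
    ∃ N : P (m + 1) →L[ℝ] (ℝ × Z m), (∀ v, N v = (⟪z.2, v.1⟫_ℝ, LL G z e v)) ∧ ‖N‖ ≤ C + M1 := by
  refine ⟨((innerSL ℝ z.2).comp (ContinuousLinearMap.fst ℝ (V (m + 1)) (V (m + 1)))).prod
    (LinearMap.toContinuousLinearMap (hlin.mk' (LL G z e))), fun v => ?_, ?_⟩
  · rfl
  · refine ContinuousLinearMap.opNorm_le_bound _ (by linarith) fun v => ?_
    have h1 : |⟪z.2, v.1⟫_ℝ| ≤ C * ‖v‖ := by
      refine (abs_real_inner_le_norm z.2 v.1).trans ?_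
      exact mul_le_mul hz2 (norm_fst_le v) (norm_nonneg _) (by linarith)
    have h2 := hb v
    have h3 : ‖((⟪z.2, v.1⟫_ℝ, LL G z e v) : ℝ × Z m)‖ ≤ (C + M1) * ‖v‖ := by
      rw [Prod.norm_def]
      refine max_le ?_ ?_
      · refine le_trans ?_ (h1.trans ?_)
        · rw [Real.norm_eq_abs]
        · nlinarith [norm_nonneg v]
      · nlinarith [norm_nonneg v]
    exact h3

theorem STH_proof (hSC1 : SC1_stmt) (hSIM : SIM_stmt) (hSFD : SFD_stmt) (hSFI : SFI_stmt) : STH_stmt := by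
  intro m C C' r hC hC' hr
  obtain ⟨M1, hM1, hSFI⟩ := hSFI m C hC
  have hC0 : 0 < C := by linarith
  have hC0' : 0 < C' := by linarith
  -- the constants of the composition
  obtain ⟨M2, hM2⟩ : ∃ M2 : ℝ, M2 = max C C' := ⟨_, rfl⟩
  have hM2C : C ≤ M2 := by rw [hM2]; exact le_max_left _ _
  have hM2C' : C' ≤ M2 := by rw [hM2]; exact le_max_right _ _
  have hM21 : 1 ≤ M2 := hC.trans hM2C
  have hM20 : 0 < M2 := by linarith
  obtain ⟨r2, hr2⟩ : ∃ r2 : ℝ, r2 = min r (1 / C) := ⟨_, rfl⟩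
  have hr2r : r2 ≤ r := by rw [hr2]; exact min_le_left _ _
  have hr2C : r2 ≤ 1 / C := by rw [hr2]; exact min_le_right _ _
  have hr20 : 0 < r2 := by rw [hr2]; exact lt_min hr (by positivity)
  obtain ⟨M3, hM3⟩ : ∃ M3 : ℝ, M3 = M2 ^ 3 + M2 ^ 2 := ⟨_, rfl⟩
  have hp2 : 1 ≤ M2 ^ 2 := one_le_pow₀ hM21
  have hp3 : 1 ≤ M2 ^ 3 := one_le_pow₀ hM21
  have hM31 : 1 ≤ M3 := by linarith
  have hM30 : 0 < M3 := by linarith
  obtain ⟨M4, hM4⟩ : ∃ M4 : ℝ, M4 = M3 ^ 3 + M3 ^ 2 := ⟨_, rfl⟩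
  have hM41 : 1 ≤ M4 := by
    have := one_le_pow₀ (n := 2) hM31
    have := one_le_pow₀ (n := 3) hM31
    linarith
  have hM40 : 0 < M4 := by linarith
  obtain ⟨r4, hr4⟩ : ∃ r4 : ℝ, r4 = r2 / M2 / M3 := ⟨_, rfl⟩
  have hr40 : 0 < r4 := by rw [hr4]; positivity
  have hM5 : 0 < C + M1 := by linarith
  -- the implicit function
  have hM6 : 1 ≤ C ^ 3 + C ^ 2 := by
    have := one_le_pow₀ (n := 2) hC
    have := one_le_pow₀ (n := 3) hC
    linarith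
  have hr6 : 0 < 1 / C / C := by positivity
  obtain ⟨M', r', ρ', hM', hr', hr'6, hρ', hρ'6, hSIM⟩ := hSIM (C ^ 3 + C ^ 2) (1 / C / C) hM6 hr6
  have hM'0 : 0 < M' := by linarith
  have hMC1 : 0 < M' * C + 1 := by positivity
  -- the radius
  obtain ⟨ρ, hρ⟩ : ∃ ρ : ℝ, ρ = min (min (min r r') (min r4 (1 / C))) (min (min (1 / (2 * ((C + M1) * M4))) (1 / C / (M' * C)))
    (r / C' / (C * (M' * C + 1)))) := ⟨_, rfl⟩
  have hρ0 : 0 < ρ := by
    rw [hρ]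
    refine lt_min (lt_min (lt_min hr hr') (lt_min hr40 (by positivity))) (lt_min (lt_min (by positivity) (by positivity)) (by positivity))
  have hρr : ρ ≤ r := by rw [hρ]; exact (min_le_left _ _).trans ((min_le_left _ _).trans (min_le_left _ _))
  have hρr' : ρ ≤ r' := by rw [hρ]; exact (min_le_left _ _).trans ((min_le_left _ _).trans (min_le_right _ _))
  have hρr4 : ρ ≤ r4 := by rw [hρ]; exact (min_le_left _ _).trans ((min_le_right _ _).trans (min_le_left _ _))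
  have hρC : ρ ≤ 1 / C := by rw [hρ]; exact (min_le_left _ _).trans ((min_le_right _ _).trans (min_le_right _ _))
  have hρ5 : ρ ≤ 1 / (2 * ((C + M1) * M4)) := by rw [hρ]; exact (min_le_right _ _).trans ((min_le_left _ _).trans (min_le_left _ _))
  have hρ6 : ρ ≤ 1 / C / (M' * C) := by rw [hρ]; exact (min_le_right _ _).trans ((min_le_left _ _).trans (min_le_right _ _))
  have hρ7 : ρ ≤ r / C' / (C * (M' * C + 1)) := by rw [hρ]; exact (min_le_right _ _).trans (min_le_right _ _)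
  have hMbig : 1 ≤ 4 * (C + M1) + M4 + M' * C + M1 * (C * (M' * C + 1)) := by
    have h1 : 0 ≤ M' * C := by positivity
    have h2 : 0 ≤ M1 * (C * (M' * C + 1)) := by positivity
    linarith
  refine ⟨4 * (C + M1) + M4 + M' * C + M1 * (C * (M' * C + 1)), ρ, hMbig, hρ0, hρr, ?_⟩
  intro Γ _ _ K G Φ D h z hz e κ hF hκ
  obtain ⟨hlin, -, -, hLX, -, hLb, -, -⟩ := hSFI Γ K G Φ D h z hz e hF
  obtain ⟨hΘ, hΘd⟩ := STH_theta hSC1 Γ K C C' r hC hC' hr G Φ D h z hz κ hκ.c11 hκ.zero M2 r2 M3 hM21 hr20 hM2C hM2C' hr2r hr2C hM3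
  rw [← hM4, ← hr4] at hΘ
  obtain ⟨hΦ, hΦd⟩ := STH_phi Γ K C G Φ D h z hz
  have hb0 := h.b0 z hz
  obtain ⟨N, hN, hNb⟩ := STH_N M1 C hM1 hC G z e hlin hLb hb0.1
  have hvel : ⟪z.2, vel G z⟫_ℝ = 1 := (hSFD m G z e h.met hz.2 hF).2.2.2.2.1
  have hNX : N (XH G z) = ((1 : ℝ), (0 : Z m)) := by
    rw [hN, hLX]
    have : (XH G z).1 = vel G z := rfl
    rw [this, hvel]
  -- the derivative of the chart
  have hNκ : ∀ v : Z m, N (fderiv ℝ κ 0 v) = ((0 : ℝ), v) := by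
    have hκd : HasFDerivAt κ (fderiv ℝ κ 0) 0 := (hκ.c11.dif 0 (by
      rw [sub_self, norm_zero]
      exact hr.le)).hasFDerivAt
    have h1 : HasFDerivAt (fun a : Z m => N (κ a - z)) (N.comp (fderiv ℝ κ 0)) 0 := by
      have := N.hasFDerivAt.comp (0 : Z m) (hκd.sub_const z)
      exact this
    have h2 : (fun a : Z m => N (κ a - z)) =ᶠ[𝓝 0] fun a => ((0 : ℝ), a) := by
      filter_upwards [Metric.ball_mem_nhds (0 : Z m) hr] with a ha
      rw [mem_ball_zero_iff] at ha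
      obtain ⟨-, h3, h4⟩ := hκ.on a ha.le
      rw [hN, h4]
      have h5 : (κ a - z).1 = e a.1 := by
        rw [Prod.fst_sub, h3]
        abel
      rw [h5, hF.ort]
    have h3 : HasFDerivAt (fun a : Z m => ((0 : ℝ), a)) (N.comp (fderiv ℝ κ 0)) 0 := h1.congr_of_eventuallyEq h2.symm
    have h4 : HasFDerivAt (fun a : Z m => ((0 : ℝ), a)) (ContinuousLinearMap.inr ℝ ℝ (Z m)) 0 := hasFDerivAt_prodMk_right (𝕜 := ℝ) (0 : ℝ) (0 : Z m)
    intro v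
    have h5 := congrArg (fun L : Z m →L[ℝ] (ℝ × Z m) => L v) (h3.unique h4)
    exact h5
  have hid : N.comp (fderiv ℝ (fun q : ℝ × Z m => Φ q.1 (κ q.2)) (0, 0)) = ContinuousLinearMap.id ℝ (ℝ × Z m) := by
    refine ContinuousLinearMap.ext fun q => ?_
    obtain ⟨σ, v⟩ := q
    rw [ContinuousLinearMap.comp_apply, hΘd, map_add, map_smul, hNX, hNκ]
    ext <;> simp
  constructor
  · -- first claim
    intro a a' s s' ha ha' hs hs'
    have hq : ∀ (s : ℝ) (a : Z m), |s| ≤ ρ → ‖a‖ ≤ ρ → ((s, a) : ℝ × Z m) ∈ Metric.closedBall ((0 : ℝ), (0 : Z m)) ρ := by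
      intro s a hs ha
      rw [Metric.mem_closedBall, dist_eq_norm, Prod.norm_def]
      refine max_le ?_ ?_
      · simpa using hs
      · simpa using ha
    have hnb : ∀ q : ℝ × Z m, q ∈ Metric.closedBall ((0 : ℝ), (0 : Z m)) ρ → ‖q - (0, 0)‖ ≤ ρ := by
      intro q hq
      rwa [Metric.mem_closedBall, dist_eq_norm] at hq
    have h00 : ‖((0 : ℝ), (0 : Z m)) - (0, 0)‖ ≤ r4 := by
      rw [sub_self, norm_zero]
      exact hr40.le
    have hlip := (convex_closedBall ((0 : ℝ), (0 : Z m)) ρ).norm_image_sub_le_of_norm_fderiv_le (𝕜 := ℝ)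
      (f := fun q : ℝ × Z m => Φ q.1 (κ q.2)) (C := M4) (x := (s', a')) (y := (s, a))
      (fun q hq => hΘ.dif q ((hnb q hq).trans hρr4)) (fun q hq => hΘ.bd q ((hnb q hq).trans hρr4)) (hq s' a' hs' ha') (hq s a hs ha)
    have hco := (convex_closedBall ((0 : ℝ), (0 : Z m)) ρ).norm_image_sub_le_of_norm_fderiv_le' (𝕜 := ℝ)
      (f := fun q : ℝ × Z m => N (Φ q.1 (κ q.2))) (φ := ContinuousLinearMap.id ℝ (ℝ × Z m)) (C := 1 / 2) (x := (s', a')) (y := (s, a))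
      (fun q hq => N.differentiableAt.comp q (hΘ.dif q ((hnb q hq).trans hρr4))) (fun q hq => by
        have h1 : fderiv ℝ (fun q : ℝ × Z m => N (Φ q.1 (κ q.2))) q = N.comp (fderiv ℝ (fun q : ℝ × Z m => Φ q.1 (κ q.2)) q) :=
          (N.hasFDerivAt.comp q (hΘ.dif q ((hnb q hq).trans hρr4)).hasFDerivAt).fderiv
        rw [h1, ← hid, ← ContinuousLinearMap.comp_sub]
        refine (ContinuousLinearMap.opNorm_comp_le _ _).trans ?_
        have h2 := hΘ.lip q (0, 0) ((hnb q hq).trans hρr4) h00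
        have h3 := hnb q hq
        calc ‖N‖ * ‖fderiv ℝ (fun q : ℝ × Z m => Φ q.1 (κ q.2)) q - fderiv ℝ (fun q : ℝ × Z m => Φ q.1 (κ q.2)) (0, 0)‖
            ≤ (C + M1) * (M4 * (1 / (2 * ((C + M1) * M4)))) := by
              refine mul_le_mul hNb (h2.trans ?_) (norm_nonneg _) hM5.le
              exact mul_le_mul_of_nonneg_left (h3.trans hρ5) hM40.le
          _ = 1 / 2 := by
            field_simp) (hq s' a' hs' ha') (hq s a hs ha)
    have hn1 : ‖((s, a) : ℝ × Z m) - (s', a')‖ = max |s - s'| ‖a - a'‖ := by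
      rw [Prod.norm_def]
      rfl
    have hmax1 : |s - s'| ≤ ‖((s, a) : ℝ × Z m) - (s', a')‖ := by rw [hn1]; exact le_max_left _ _
    have hmax2 : ‖a - a'‖ ≤ ‖((s, a) : ℝ × Z m) - (s', a')‖ := by rw [hn1]; exact le_max_right _ _
    have hmax3 : ‖((s, a) : ℝ × Z m) - (s', a')‖ ≤ ‖a - a'‖ + |s - s'| := by
      rw [hn1]
      exact max_le (by linarith [norm_nonneg (a - a')]) (by linarith [abs_nonneg (s - s')])
    dsimp only at hlip hco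
    rw [← map_sub, ContinuousLinearMap.id_apply] at hco
    have h1 : ‖N (Φ s (κ a) - Φ s' (κ a'))‖ ≤ (C + M1) * ‖Φ s (κ a) - Φ s' (κ a')‖ :=
      (N.le_opNorm _).trans (mul_le_mul_of_nonneg_right hNb (norm_nonneg _))
    have h2 : ‖((s, a) : ℝ × Z m) - (s', a')‖ ≤ ‖N (Φ s (κ a) - Φ s' (κ a')) - (((s, a) : ℝ × Z m) - (s', a'))‖ + ‖N (Φ s (κ a) - Φ s' (κ a'))‖ := by
      have h3 := norm_sub_le (N (Φ s (κ a) - Φ s' (κ a'))) (N (Φ s (κ a) - Φ s' (κ a')) - (((s, a) : ℝ × Z m) - (s', a')))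
      rw [sub_sub_cancel] at h3
      linarith
    have hX := norm_nonneg (Φ s (κ a) - Φ s' (κ a'))
    have hpos1 : 0 ≤ M' * C := by positivity
    have hpos2 : 0 ≤ M1 * (C * (M' * C + 1)) := by positivity
    constructor
    · have h4 : ‖((s, a) : ℝ × Z m) - (s', a')‖ ≤ 2 * ((C + M1) * ‖Φ s (κ a) - Φ s' (κ a')‖) := by linarith
      have h5 : ‖a - a'‖ + |s - s'| ≤ 4 * (C + M1) * ‖Φ s (κ a) - Φ s' (κ a')‖ := by linarith
      refine h5.trans (mul_le_mul_of_nonneg_right ?_ hX)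
      linarith
    · refine hlip.trans ?_
      refine (mul_le_mul_of_nonneg_left hmax3 hM40.le).trans ?_
      refine mul_le_mul_of_nonneg_right ?_ (add_nonneg (norm_nonneg _) (abs_nonneg _))
      linarith
  · -- the box
    intro p hp hpz
    -- the function `g`
    have hg : C11 (C ^ 3 + C ^ 2) (1 / C / C) ((0 : ℝ), z) (fun q : ℝ × P (m + 1) => ⟪z.2, (Φ q.1 q.2).1⟫_ℝ + -⟪z.2, z.1⟫_ℝ) := by
      have hL : ‖(innerSL ℝ z.2).comp (ContinuousLinearMap.fst ℝ (V (m + 1)) (V (m + 1)))‖ ≤ C := by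
        refine ContinuousLinearMap.opNorm_le_bound _ hC0.le fun v => ?_
        have h1 : ‖((innerSL ℝ z.2).comp (ContinuousLinearMap.fst ℝ (V (m + 1)) (V (m + 1)))) v‖ = |⟪z.2, v.1⟫_ℝ| := rfl
        rw [h1]
        refine (abs_real_inner_le_norm z.2 v.1).trans ?_
        exact mul_le_mul hb0.1 (norm_fst_le v) (norm_nonneg _) (by linarith)
      have h1 := (hSC1 (P (m + 1)) ℝ ℝ C (1 / C) (Φ ((0 : ℝ), z).1 ((0 : ℝ), z).2) hC (by positivity)).2.2.2.1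
        ((innerSL ℝ z.2).comp (ContinuousLinearMap.fst ℝ (V (m + 1)) (V (m + 1)))) (-⟪z.2, z.1⟫_ℝ) hL
      exact (hSC1 (ℝ × P (m + 1)) (P (m + 1)) ℝ C (1 / C) ((0 : ℝ), z) hC (by positivity)).2.1
        (fun q : ℝ × P (m + 1) => Φ q.1 q.2) (fun v => ((innerSL ℝ z.2).comp (ContinuousLinearMap.fst ℝ (V (m + 1)) (V (m + 1)))) v + -⟪z.2, z.1⟫_ℝ) hΦ h1
    have hz0 : Φ 0 z = z := h.fl.zero z
    have hgd : fderiv ℝ (fun q : ℝ × P (m + 1) => ⟪z.2, (Φ q.1 q.2).1⟫_ℝ + -⟪z.2, z.1⟫_ℝ) (0, z) (1, 0) = 1 := by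
      have h1 : HasFDerivAt (fun q : ℝ × P (m + 1) => ⟪z.2, (Φ q.1 q.2).1⟫_ℝ + -⟪z.2, z.1⟫_ℝ)
          (((innerSL ℝ z.2).comp (ContinuousLinearMap.fst ℝ (V (m + 1)) (V (m + 1)))).comp (fderiv ℝ (fun q : ℝ × P (m + 1) => Φ q.1 q.2) (0, z))) (0, z) := by
        have h2 : HasFDerivAt (fun q : ℝ × P (m + 1) => Φ q.1 q.2) (fderiv ℝ (fun q : ℝ × P (m + 1) => Φ q.1 q.2) (0, z)) (0, z) :=
          (hΦ.dif (0, z) (by
            rw [sub_self, norm_zero]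
            positivity)).hasFDerivAt
        have h3 := ((innerSL ℝ z.2).comp (ContinuousLinearMap.fst ℝ (V (m + 1)) (V (m + 1)))).hasFDerivAt.comp ((0 : ℝ), z) h2
        exact h3.add_const (-⟪z.2, z.1⟫_ℝ)
      rw [h1.fderiv]
      have h2 := hΦd 1 0
      rw [one_smul, add_zero] at h2
      rw [ContinuousLinearMap.comp_apply, h2]
      have h3 : ((innerSL ℝ z.2).comp (ContinuousLinearMap.fst ℝ (V (m + 1)) (V (m + 1)))) (XH G z) = ⟪z.2, vel G z⟫_ℝ := rfl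
      rw [h3, hvel]
    have hg0 : ⟪z.2, (Φ ((0 : ℝ), z).1 ((0 : ℝ), z).2).1⟫_ℝ + -⟪z.2, z.1⟫_ℝ = 0 := by
      dsimp only
      rw [hz0]
      ring
    obtain ⟨τ, -, hτ⟩ := hSIM (P (m + 1)) (fun q : ℝ × P (m + 1) => ⟪z.2, (Φ q.1 q.2).1⟫_ℝ + -⟪z.2, z.1⟫_ℝ) 0 z hg
      (by
        rw [hgd]
        rw [div_le_iff₀ (by linarith)]
        linarith)
      (by
        rw [hg0, abs_zero]
        exact hr'.le)
    obtain ⟨-, hτ2, hτ3, -⟩ := hτ p (hpz.trans hρr')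
    dsimp only at hτ2 hτ3
    rw [h.fl.zero p, sub_zero] at hτ3
    obtain ⟨s0, hs0⟩ : ∃ s0 : ℝ, s0 = τ p := ⟨_, rfl⟩
    rw [← hs0] at hτ2 hτ3
    have h1 : |⟪z.2, p.1⟫_ℝ + -⟪z.2, z.1⟫_ℝ| ≤ C * ‖p - z‖ := by
      have h2 : ⟪z.2, p.1⟫_ℝ + -⟪z.2, z.1⟫_ℝ = ⟪z.2, (p - z).1⟫_ℝ := by
        rw [Prod.fst_sub, inner_sub_right]
        ring
      rw [h2]
      refine (abs_real_inner_le_norm z.2 _).trans ?_
      exact mul_le_mul hb0.1 (norm_fst_le (p - z)) (norm_nonneg _) (by linarith)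
    have hs1 : |s0| ≤ M' * C * ‖p - z‖ := by
      refine hτ3.trans ?_
      calc M' * |⟪z.2, p.1⟫_ℝ + -⟪z.2, z.1⟫_ℝ| ≤ M' * (C * ‖p - z‖) := mul_le_mul_of_nonneg_left h1 hM'0.le
        _ = _ := by ring
    have hs2 : |s0| ≤ 1 / C := by
      refine hs1.trans ?_
      calc M' * C * ‖p - z‖ ≤ M' * C * (1 / C / (M' * C)) := mul_le_mul_of_nonneg_left (hpz.trans hρ6) (by positivity)
        _ = 1 / C := by
          field_simp
    have hpz0 := norm_nonneg (p - z)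
    -- the point `q`
    have hq1 : ‖Φ s0 p - z‖ ≤ C * (M' * C + 1) * ‖p - z‖ := by
      have h2 : ‖((s0, p) : ℝ × P (m + 1)) - (0, z)‖ ≤ 1 / C := by
        rw [Prod.norm_def]
        refine max_le ?_ ?_
        · simpa using hs2
        · exact hpz.trans hρC
      have h3 : ‖((0 : ℝ), z) - (0, z)‖ ≤ 1 / C := by
        rw [sub_self, norm_zero]
        positivity
      have h4 := ((hSC1 (ℝ × P (m + 1)) (P (m + 1)) (P (m + 1)) C (1 / C) ((0 : ℝ), z) hC (by positivity)).1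
        (fun q : ℝ × P (m + 1) => Φ q.1 q.2) hΦ (s0, p) (0, z) h2 h3).1
      dsimp only at h4
      rw [hz0] at h4
      refine h4.trans ?_
      have h5 : ‖((s0, p) : ℝ × P (m + 1)) - (0, z)‖ ≤ (M' * C + 1) * ‖p - z‖ := by
        rw [Prod.norm_def]
        refine max_le ?_ ?_
        · have h6 : ‖(((s0, p) : ℝ × P (m + 1)) - (0, z)).1‖ = |s0| := by simp
          rw [h6]
          nlinarith
        · have h6 : (((s0, p) : ℝ × P (m + 1)) - (0, z)).2 = p - z := rfl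
          rw [h6]
          have : 0 ≤ M' * C * ‖p - z‖ := by positivity
          nlinarith
      calc C * ‖((s0, p) : ℝ × P (m + 1)) - (0, z)‖ ≤ C * ((M' * C + 1) * ‖p - z‖) := mul_le_mul_of_nonneg_left h5 hC0.le
        _ = _ := by ring
    have hq2 : ‖Φ s0 p - z‖ ≤ r / C' := by
      refine hq1.trans ?_
      calc C * (M' * C + 1) * ‖p - z‖ ≤ C * (M' * C + 1) * (r / C' / (C * (M' * C + 1))) :=
            mul_le_mul_of_nonneg_left (hpz.trans hρ7) (by positivity)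
        _ = r / C' := by
          field_simp
    have hMMp : MM Φ (1 : Γ) (s0, p) = Φ s0 p := h.l1 _
    have hq3 : nrm G (Φ s0 p) = 1 := by
      rw [← hMMp, (h.hm 1 s0 p).1]
      exact hp
    have hq4 : ⟪z.2, (Φ s0 p).1 - z.1⟫_ℝ = 0 := by
      rw [inner_sub_right]
      linarith
    have hq5 := hκ.un (Φ s0 p) hq3 hq2 hq4
    refine ⟨-s0, LL G z e (Φ s0 p - z), ?_, ?_, ?_⟩
    · rw [hq5, ← h.fl.add, neg_add_cancel, h.fl.zero]
    · rw [abs_neg]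
      refine hs1.trans (mul_le_mul_of_nonneg_right ?_ hpz0)
      have h2 : 0 ≤ M1 * (C * (M' * C + 1)) := by positivity
      linarith
    · refine (hLb _).trans ?_
      refine (mul_le_mul_of_nonneg_left hq1 (by linarith)).trans ?_
      have h3 : M1 * (C * (M' * C + 1) * ‖p - z‖) = M1 * (C * (M' * C + 1)) * ‖p - z‖ := by ring
      rw [h3]
      refine mul_le_mul_of_nonneg_right ?_ hpz0
      have h2 : 0 ≤ M' * C := by positivity
      linarith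

end

end Pool.Agent.VD
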