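import Pool.Agent.helper74.VD.SpecA3

/-!
# Project VD (MP_07c750_an): row AOVD, overlaps in one chart
-/

set_option autoImplicit false

open scoped ContDiff Topology InnerProductSpace ComplexConjugate ENNReal
open MeasureTheory Filter Set

namespace Pool.Agent.VD

open Pool.Agent.VQ (CH)

noncomputable section

/-- the determinant in the standard basis -/
lemma AOVD_det {d : ℕ} (A : V d →L[ℝ] V d) :
    A.det = (Matrix.of fun i j : Fin d => A (EuclideanSpace.single j 1) i).det := by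
  have h : A.det = LinearMap.det (A : V d →ₗ[ℝ] V d) := rfl
  rw [h, ← LinearMap.det_toMatrix (EuclideanSpace.basisFun (Fin d) ℝ).toBasis]
  congr 1

lemma AOVD_expand {d : ℕ} (u : V d) : u = ∑ i : Fin d, u i • EuclideanSpace.single i (1 : ℝ) := by
  ext j
  simp [Finset.sum_apply, Pi.single_apply]

lemma AOVD_detpos {d : ℕ} (A : V d →L[ℝ] V d) (hs : ∀ u v, ⟪A u, v⟫_ℝ = ⟪u, A v⟫_ℝ)
    (hp : ∀ u, u ≠ 0 → 0 < ⟪A u, u⟫_ℝ) : 0 < A.det := by
  rw [AOVD_det]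
  apply Matrix.PosDef.det_pos
  have hij : ∀ i j : Fin d, A (EuclideanSpace.single j 1) i =
      ⟪EuclideanSpace.single i (1 : ℝ), A (EuclideanSpace.single j 1)⟫_ℝ := fun i j => by
    rw [EuclideanSpace.inner_single_left]; simp
  apply Matrix.PosDef.of_dotProduct_mulVec_pos
  · ext i j
    simp only [Matrix.conjTranspose_apply, Matrix.of_apply, star_trivial]
    rw [hij, hij, ← hs, real_inner_comm]
  · intro x hx
    set u : V d := WithLp.toLp 2 x with hu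
    have hu0 : u ≠ 0 := by
      intro h
      apply hx
      have := congrArg (WithLp.ofLp) h
      simpa [hu] using this
    have h1 := hp u hu0
    have h2 : ⟪A u, u⟫_ℝ = star x ⬝ᵥ ((Matrix.of fun i j : Fin d => A (EuclideanSpace.single j 1) i).mulVec x) := by
      have h3 : A u = ∑ j : Fin d, x j • A (EuclideanSpace.single j 1) := by
        conv_lhs => rw [AOVD_expand u]
        rw [map_sum]
        refine Finset.sum_congr rfl fun j _ => ?_
        rw [map_smul]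
      rw [h3, EuclideanSpace.inner_eq_star_dotProduct]
      simp only [dotProduct, Matrix.mulVec, Matrix.of_apply, star_trivial, Pi.star_apply]
      refine Finset.sum_congr rfl fun i _ => ?_
      simp only [hu]
      congr 1
      simp [Finset.sum_apply, mul_comm]
    rw [← h2]
    exact h1

lemma AOVD_detsmooth {d : ℕ} (G : V d → V d →L[ℝ] V d) (hG : ContDiff ℝ ∞ G) :
    ContDiff ℝ ∞ fun x => (G x).det := by
  simp only [AOVD_det, Matrix.det_apply]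
  refine ContDiff.sum fun σ _ => ?_
  refine ContDiff.const_smul _ ?_
  refine contDiff_prod fun i _ => ?_
  simp only [Matrix.of_apply]
  have h1 : ContDiff ℝ ∞ fun x => G x (EuclideanSpace.single i 1) := hG.clm_apply contDiff_const
  exact (contDiff_euclidean.mp h1) (σ i)

lemma AOVD_dens {d : ℕ} (G : V d → V d →L[ℝ] V d) (hG : IsMetric G) :
    ContDiff ℝ ∞ (dens G) ∧ ∀ x, 0 < dens G x := by
  have hp : ∀ x, 0 < (G x).det := fun x => AOVD_detpos (G x) (hG.symm x) (hG.pos x)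
  refine ⟨?_, fun x => Real.sqrt_pos.mpr (hp x)⟩
  exact (AOVD_detsmooth G hG.smooth).sqrt fun x => (hp x).ne'

/-- the integral in the coordinate `v` -/
lemma AOVD_int {d : ℕ} (G : V d → V d →L[ℝ] V d) (hG : IsMetric G) (F : V d → ℂ) (x : V d) :
    ∫ w, F w ∂mv G = ∫ v : V d, ((dens G (x + v) : ℝ) : ℂ) * F (x + v) := by
  obtain ⟨h1, h2⟩ := AOVD_dens G hG
  have hm : Measurable fun x => ENNReal.ofReal (dens G x) := ENNReal.measurable_ofReal.comp h1.continuous.measurable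
  unfold mv
  rw [integral_withDensity_eq_integral_toReal_smul hm (Eventually.of_forall fun _ => ENNReal.ofReal_lt_top)]
  rw [← integral_add_left_eq_self (μ := (volume : Measure (V d))) _ x]
  refine integral_congr_ae (Eventually.of_forall fun v => ?_)
  simp only [ENNReal.toReal_ofReal (h2 _).le, Complex.real_smul]

/-- products -/
lemma AOVD_mul {d n : ℕ} {a b N : ℝ} {f g : V d → ℂ} (v : V d) (hf : ContDiff ℝ ∞ f) (hg : ContDiff ℝ ∞ g) (ha : 0 ≤ a) (hN : 0 ≤ N)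
    (h1 : ∀ k ≤ n, ‖iteratedFDeriv ℝ k f v‖ ≤ a * N ^ k) (h2 : ∀ k ≤ n, ‖iteratedFDeriv ℝ k g v‖ ≤ b * N ^ k) :
    ∀ k ≤ n, ‖iteratedFDeriv ℝ k (fun v => f v * g v) v‖ ≤ 2 ^ n * (a * b) * N ^ k := by
  intro k hk
  have hb : 0 ≤ b := by
    have := (norm_nonneg _).trans (h2 0 (Nat.zero_le n))
    rwa [pow_zero, mul_one] at this
  refine (norm_iteratedFDeriv_mul_le hf hg v (n := k) (by exact_mod_cast le_top)).trans ?_
  have h3 : ∀ i ∈ Finset.range (k + 1), (k.choose i : ℝ) * ‖iteratedFDeriv ℝ i f v‖ * ‖iteratedFDeriv ℝ (k - i) g v‖ ≤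
      (k.choose i : ℝ) * ((a * b) * N ^ k) := by
    intro i hi
    have hik : i ≤ k := Nat.lt_succ_iff.1 (Finset.mem_range.1 hi)
    have e1 := h1 i (hik.trans hk)
    have e2 := h2 (k - i) ((Nat.sub_le k i).trans hk)
    have e3 : ‖iteratedFDeriv ℝ i f v‖ * ‖iteratedFDeriv ℝ (k - i) g v‖ ≤ (a * N ^ i) * (b * N ^ (k - i)) :=
      mul_le_mul e1 e2 (norm_nonneg _) (by positivity)
    have e4 : (a * N ^ i) * (b * N ^ (k - i)) = (a * b) * N ^ k := by
      have : N ^ k = N ^ i * N ^ (k - i) := by rw [← pow_add, Nat.add_sub_cancel' hik]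
      rw [this]
      ring
    rw [mul_assoc, ← e4]
    exact mul_le_mul_of_nonneg_left e3 (Nat.cast_nonneg _)
  refine (Finset.sum_le_sum h3).trans ?_
  rw [← Finset.sum_mul]
  have h4 : (∑ i ∈ Finset.range (k + 1), (k.choose i : ℝ)) = 2 ^ k := by
    exact_mod_cast Nat.sum_range_choose k
  have h5 : (2 : ℝ) ^ k ≤ 2 ^ n := pow_le_pow_right₀ one_le_two hk
  have h6 : 0 ≤ a * b * N ^ k := by positivity
  rw [h4, mul_assoc (2 ^ n : ℝ)]
  exact mul_le_mul_of_nonneg_right h5 h6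

/-- the amplitude -/
def AOVD_B {d : ℕ} (A1 A2 : V d → ℂ) (D : V d → ℝ) (x v : V d) : ℂ := A1 v * (conj (A2 (v + x)) * ((D v : ℝ) : ℂ))

lemma AOVD_sym {d n : ℕ} {s N c m1 m2 : ℝ} {A1 A2 : V d → ℂ} {D : V d → ℝ} (x : V d) (hN : 1 ≤ N) (hm1 : 0 ≤ m1) (hm2 : 0 ≤ m2) (hc : 0 ≤ c)
    (hA1 : ContDiff ℝ ∞ A1) (hs1 : ∀ v, A1 v ≠ 0 → ‖v‖ ≤ s) (hb1 : ∀ k ≤ n, ∀ v, ‖iteratedFDeriv ℝ k A1 v‖ ≤ m1 * N ^ k)
    (hA2 : ContDiff ℝ ∞ A2) (hb2 : ∀ k ≤ n, ∀ v, ‖iteratedFDeriv ℝ k A2 v‖ ≤ m2 * N ^ k)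
    (hD : ContDiff ℝ ∞ D) (hbD : ∀ k ≤ n, ∀ v, ‖v‖ ≤ s → ‖iteratedFDeriv ℝ k D v‖ ≤ c) :
    ContDiff ℝ ∞ (AOVD_B A1 A2 D x) ∧ (∀ v, AOVD_B A1 A2 D x v ≠ 0 → ‖v‖ ≤ s) ∧
      ∀ k ≤ n, ∀ v, ‖iteratedFDeriv ℝ k (AOVD_B A1 A2 D x) v‖ ≤ 2 ^ n * (m1 * (2 ^ n * (m2 * c))) * N ^ k := by
  have hN0 : 0 ≤ N := by linarith
  have hA2x : ContDiff ℝ ∞ fun v => A2 (v + x) := hA2.comp (by fun_prop)
  have h1 : ContDiff ℝ ∞ fun v => conj (A2 (v + x)) := Complex.conjLIE.contDiff.comp hA2x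
  have h2 : ContDiff ℝ ∞ fun v => ((D v : ℝ) : ℂ) := Complex.ofRealCLM.contDiff.comp hD
  have hs : ∀ v, AOVD_B A1 A2 D x v ≠ 0 → ‖v‖ ≤ s := by
    intro v hv
    refine hs1 v fun h => hv ?_
    unfold AOVD_B
    rw [h, zero_mul]
  refine ⟨hA1.mul (h1.mul h2), hs, fun k hk v => ?_⟩
  by_cases hv : ‖v‖ ≤ s
  · have e1 : ∀ k ≤ n, ‖iteratedFDeriv ℝ k (fun v => conj (A2 (v + x))) v‖ ≤ m2 * N ^ k := by
      intro k hk
      have h0 : ‖iteratedFDeriv ℝ k (fun v => conj (A2 (v + x))) v‖ = ‖iteratedFDeriv ℝ k (fun v => A2 (v + x)) v‖ :=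
        Complex.conjLIE.norm_iteratedFDeriv_comp_left _ v k
      rw [h0, iteratedFDeriv_comp_add_right]
      exact hb2 k hk _
    have e2 : ∀ k ≤ n, ‖iteratedFDeriv ℝ k (fun v => ((D v : ℝ) : ℂ)) v‖ ≤ c * N ^ k := by
      intro k hk
      have h0 : ‖iteratedFDeriv ℝ k (fun v => ((D v : ℝ) : ℂ)) v‖ = ‖iteratedFDeriv ℝ k D v‖ :=
        Complex.ofRealLI.norm_iteratedFDeriv_comp_left (n := ∞) hD.contDiffAt (by exact_mod_cast le_top)
      rw [h0]
      refine (hbD k hk v hv).trans ?_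
      have h3 : 1 ≤ N ^ k := one_le_pow₀ hN
      nlinarith
    have e3 := AOVD_mul v h1 h2 hm2 hN0 e1 e2
    exact AOVD_mul v hA1 (h1.mul h2) hm1 hN0 (fun k hk => hb1 k hk v) e3 k hk
  · rw [not_le] at hv
    have h0 : AOVD_B A1 A2 D x =ᶠ[𝓝 v] fun _ => 0 := by
      have h3 : {w : V d | s < ‖w‖} ∈ 𝓝 v := (isOpen_lt continuous_const continuous_norm).mem_nhds hv
      filter_upwards [h3] with w hw
      by_contra h4
      exact absurd (hs w h4) (not_le.2 hw)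
    have h4 : iteratedFDeriv ℝ k (AOVD_B A1 A2 D x) v = 0 := by
      rw [(h0.iteratedFDeriv ℝ k).eq_of_nhds]
      exact congrFun (iteratedFDeriv_fun_zero (𝕜 := ℝ) (n := k)) v
    rw [h4, norm_zero]
    positivity

/-- the overlap of two packets -/
lemma AOVD_formula {d : ℕ} (G : V d → V d →L[ℝ] V d) (hG : IsMetric G) {R : ℝ} {q1 q2 : P d} {f1 f2 A1 A2 : V d → ℂ}
    (h1 : ∀ w, f1 w = Complex.exp (((R * ⟪q1.2, w - q1.1⟫_ℝ : ℝ) : ℂ) * Complex.I) * A1 (w - q1.1))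
    (h2 : ∀ w, f2 w = Complex.exp (((R * ⟪q2.2, w - q2.1⟫_ℝ : ℝ) : ℂ) * Complex.I) * A2 (w - q2.1)) :
    ‖∫ w, f1 w * conj (f2 w) ∂mv G‖ = ‖∫ v : V d, AOVD_B A1 A2 (fun v => dens G (q1.1 + v)) (q1.1 - q2.1) v *
      Complex.exp (((R * ⟪q1.2 - q2.2, v⟫_ℝ : ℝ) : ℂ) * Complex.I)‖ := by
  rw [AOVD_int G hG _ q1.1]
  have h3 : ∀ v : V d, ((dens G (q1.1 + v) : ℝ) : ℂ) * (f1 (q1.1 + v) * conj (f2 (q1.1 + v))) =
      Complex.exp (((-(R * ⟪q2.2, q1.1 - q2.1⟫_ℝ) : ℝ) : ℂ) * Complex.I) * (AOVD_B A1 A2 (fun v => dens G (q1.1 + v)) (q1.1 - q2.1) v *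
        Complex.exp (((R * ⟪q1.2 - q2.2, v⟫_ℝ : ℝ) : ℂ) * Complex.I)) := by
    intro v
    have e1 : q1.1 + v - q1.1 = v := by abel
    have e2 : q1.1 + v - q2.1 = v + (q1.1 - q2.1) := by abel
    rw [h1, h2, e1, e2, map_mul, ← Complex.exp_conj, map_mul, Complex.conj_I, Complex.conj_ofReal]
    have e3 : Complex.exp (((R * ⟪q1.2, v⟫_ℝ : ℝ) : ℂ) * Complex.I) * Complex.exp (((R * ⟪q2.2, v + (q1.1 - q2.1)⟫_ℝ : ℝ) : ℂ) * -Complex.I) =
        Complex.exp (((-(R * ⟪q2.2, q1.1 - q2.1⟫_ℝ) : ℝ) : ℂ) * Complex.I) * Complex.exp (((R * ⟪q1.2 - q2.2, v⟫_ℝ : ℝ) : ℂ) * Complex.I) := by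
      rw [← Complex.exp_add, ← Complex.exp_add]
      congr 1
      rw [inner_add_right, inner_sub_left]
      push_cast
      ring
    unfold AOVD_B
    linear_combination ((dens G (q1.1 + v) : ℝ) : ℂ) * A1 v * conj (A2 (v + (q1.1 - q2.1))) * e3
  simp_rw [h3]
  rw [integral_const_mul, norm_mul, Complex.norm_exp_ofReal_mul_I, one_mul]

/-- the trivial bound -/
lemma AOVD_triv {d : ℕ} {s b : ℝ} (hs : 0 ≤ s) {B : V d → ℂ} (hB : ∀ v, B v ≠ 0 → ‖v‖ ≤ s) (hb2 : ∀ v, ‖B v‖ ≤ b) :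
    ‖∫ v : V d, B v‖ ≤ b * (s ^ d * (volume (Metric.ball (0 : V d) 1)).toReal) := by
  have h1 : ∫ v : V d, B v = ∫ v in Metric.closedBall (0 : V d) s, B v := by
    symm
    refine setIntegral_eq_integral_of_forall_compl_eq_zero fun v hv => ?_
    by_contra h
    exact hv (by rw [mem_closedBall_zero_iff]; exact hB v h)
  have h2 : (volume.real (Metric.closedBall (0 : V d) s)) = s ^ d * (volume (Metric.ball (0 : V d) 1)).toReal := by
    have h3 : volume (Metric.closedBall (0 : V d) s) = ENNReal.ofReal (s ^ d) * volume (Metric.ball (0 : V d) 1) := by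
      have := Measure.addHaar_closedBall (volume : Measure (V d)) 0 hs
      rwa [finrank_euclideanSpace, Fintype.card_fin] at this
    rw [measureReal_def, h3, ENNReal.toReal_mul, ENNReal.toReal_ofReal (pow_nonneg hs d)]
  rw [h1, ← h2]
  refine norm_setIntegral_le_of_norm_le_const ?_ fun v _ => hb2 v
  exact (isCompact_closedBall (0 : V d) s).measure_lt_top

theorem AOVD_proof (hANSD : ANSD_stmt) (hAHLD : AHLD_stmt) : AOVD_stmt := by
  intro d Γ _ _ K k B r M η hK hη hη16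
  obtain ⟨Kd, hKd⟩ := exists_nat_ge ((|M| + 1) / (2 * η))
  rw [div_le_iff₀ (by positivity)] at hKd
  obtain ⟨C, hC1, hC⟩ := hAHLD d Γ K k B (r + 1) Kd
  set Cv : ℝ := (volume (Metric.ball (0 : V d) 1)).toReal with hCv
  have hCv0 : 0 ≤ Cv := ENNReal.toReal_nonneg
  obtain ⟨Q1, hQ1⟩ : ∃ Q1 : ℝ, Q1 = 2 ^ Kd * (2 ^ Kd * C) := ⟨_, rfl⟩
  have hQ10 : 0 ≤ Q1 := by rw [hQ1]; positivity
  obtain ⟨Q, hQ⟩ : ∃ Q : ℝ, Q = 3 + Q1 * Cv + 2 ^ d * Q1 := ⟨_, rfl⟩
  have hQ3 : 3 ≤ Q := by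
    rw [hQ]
    have : 0 ≤ Q1 * Cv + 2 ^ d * Q1 := by positivity
    linarith
  have hR0 : 1 ≤ Q ^ (1 / η) := Real.one_le_rpow (by linarith) (by positivity)
  refine ⟨Kd, Q ^ (1 / η), hR0, ?_⟩
  intro R m1 m2 G q1 q2 f1 f2 hR hG hm1 hm2 hq1 hf1 hf2
  obtain ⟨A1, hA1, hs1, hb1, hf1⟩ := hf1
  obtain ⟨A2, hA2, hs2, hb2, hf2⟩ := hf2
  have hR1 : 1 ≤ R := hR0.trans hR
  have hRpos : 0 < R := by linarith
  have hQR : Q ≤ R ^ η := by
    have h1 : (Q ^ (1 / η)) ^ η ≤ R ^ η := Real.rpow_le_rpow (by positivity) hR hη.le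
    rwa [← Real.rpow_mul (by linarith), one_div, inv_mul_cancel₀ hη.ne', Real.rpow_one] at h1
  have hRη1 : R ^ η ≤ R := by
    have := Real.rpow_le_rpow_of_exponent_le hR1 (show η ≤ 1 by linarith)
    rwa [Real.rpow_one] at this
  set s : ℝ := R ^ (-(1 / 2) + η) with hs
  set N : ℝ := R ^ (1 / 2 + η) with hN
  have hs0 : 0 < s := Real.rpow_pos_of_pos hRpos _
  have hN1 : 1 ≤ N := Real.one_le_rpow hR1 (by linarith)
  have hsle : s ≤ 1 := Real.rpow_le_one_of_one_le_of_nonpos hR1 (by linarith)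
  obtain ⟨-, -, -, -, hC'⟩ := hC G hK hG
  obtain ⟨hdens, hdpos⟩ := AOVD_dens G hG.met
  have hbD : ∀ k ≤ Kd, ∀ v : V d, ‖v‖ ≤ s → ‖iteratedFDeriv ℝ k (fun v => dens G (q1.1 + v)) v‖ ≤ C := by
    intro k hk v hv
    rw [iteratedFDeriv_comp_add_left]
    refine ((hC' (q1.1 + v) ?_).2.1 k hk).1
    refine (norm_add_le _ _).trans ?_
    linarith
  obtain ⟨hB1, hB2, hB3⟩ := AOVD_sym (q1.1 - q2.1) hN1 hm1 hm2 (by linarith : (0 : ℝ) ≤ C) hA1 hs1 hb1 hA2 hb2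
    (D := fun v => dens G (q1.1 + v)) (hdens.comp (by fun_prop)) hbD
  have hBm : 2 ^ Kd * (m1 * (2 ^ Kd * (m2 * C))) = m1 * m2 * Q1 := by rw [hQ1]; ring
  rw [hBm] at hB3
  have hform := AOVD_formula G hG.met hf1 hf2
  have hm : 0 ≤ m1 * m2 := mul_nonneg hm1 hm2
  have hzero : (∫ w, f1 w * conj (f2 w) ∂mv G) ≠ 0 → ‖q1.1 - q2.1‖ ≤ 2 * s := by
    intro h
    have h1 : ∃ w, f1 w * conj (f2 w) ≠ 0 := by
      by_contra h2
      push Not at h2
      apply h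
      simp only [h2, integral_zero]
    obtain ⟨w, hw⟩ := h1
    have h2 : A1 (w - q1.1) ≠ 0 := by
      intro h3
      apply hw
      rw [hf1, h3]
      simp
    have h3 : A2 (w - q2.1) ≠ 0 := by
      intro h4
      apply hw
      rw [hf2, h4]
      simp
    have h4 := hs1 _ h2
    have h5 := hs2 _ h3
    have h6 : q1.1 - q2.1 = (w - q2.1) - (w - q1.1) := by abel
    rw [h6]
    refine (norm_sub_le _ _).trans ?_
    linarith
  refine ⟨?_, hzero, ?_⟩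
  · rw [hform]
    refine (AOVD_triv (s := s) (b := m1 * m2 * Q1) hs0.le (fun v hv => hB2 v (left_ne_zero_of_mul hv)) fun v => ?_).trans ?_
    · rw [norm_mul, Complex.norm_exp_ofReal_mul_I, mul_one]
      have := hB3 0 (Nat.zero_le _) v
      rwa [norm_iteratedFDeriv_zero, pow_zero, mul_one] at this
    · have h1 : R ^ (-((d : ℝ) / 2) + (d + 1) * η) = s ^ d * R ^ η := by
        rw [hs, ← Real.rpow_natCast, ← Real.rpow_mul hRpos.le, ← Real.rpow_add hRpos]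
        congr 1
        ring
      rw [h1]
      have h2 : Q1 * Cv ≤ R ^ η := by
        refine le_trans ?_ hQR
        rw [hQ]
        have : 0 ≤ 2 ^ d * Q1 := by positivity
        linarith
      calc m1 * m2 * Q1 * (s ^ d * Cv) = m1 * m2 * (s ^ d * (Q1 * Cv)) := by ring
        _ ≤ m1 * m2 * (s ^ d * R ^ η) := by
          refine mul_le_mul_of_nonneg_left (mul_le_mul_of_nonneg_left h2 (by positivity)) hm
  · intro hdist
    by_cases hI : (∫ w, f1 w * conj (f2 w) ∂mv G) = 0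
    · rw [hI, norm_zero]
      exact mul_nonneg hm (Real.rpow_nonneg hRpos.le _)
    have hx := hzero hI
    set L : ℝ := R ^ (-(1 / 2) + 4 * η) with hL
    have hLs : L = s * R ^ (3 * η) := by
      rw [hL, hs, ← Real.rpow_add hRpos]
      congr 1
      ring
    have h3η : 3 ≤ R ^ (3 * η) := by
      refine (hQ3.trans hQR).trans ?_
      exact Real.rpow_le_rpow_of_exponent_le hR1 (by linarith)
    have hLs2 : 2 * s < L := by
      rw [hLs]
      nlinarith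
    have hξ : L ≤ ‖q1.2 - q2.2‖ := by
      rw [not_lt, Prod.dist_eq] at hdist
      rcases le_max_iff.1 hdist with h | h
      · rw [dist_eq_norm] at h
        linarith
      · rwa [dist_eq_norm] at h
    have hL0 : 0 < L := Real.rpow_pos_of_pos hRpos _
    have hξ0 : q1.2 - q2.2 ≠ 0 := by
      intro h
      rw [h, norm_zero] at hξ
      linarith
    rw [hform]
    refine (hANSD d Kd R s (m1 * m2 * Q1) N (q1.2 - q2.2) _ hRpos hs0 (by positivity) (by linarith) hξ0 hB1 hB2 fun v => hB3 Kd le_rfl v).trans ?_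
    have h1 : N / (R * ‖q1.2 - q2.2‖) ≤ R ^ (-(3 * η)) := by
      have e1 : R * L ≤ R * ‖q1.2 - q2.2‖ := mul_le_mul_of_nonneg_left hξ hRpos.le
      have e2 : 0 < R * L := by positivity
      refine (div_le_div_of_nonneg_left (by linarith) e2 e1).trans (le_of_eq ?_)
      rw [div_eq_iff e2.ne', hL, hN]
      have e3 : R ^ (-(3 * η)) * (R * R ^ (-(1 / 2) + 4 * η)) = R ^ (-(3 * η)) * (R ^ (1 : ℝ) * R ^ (-(1 / 2) + 4 * η)) := by rw [Real.rpow_one]
      rw [e3, ← Real.rpow_add hRpos, ← Real.rpow_add hRpos]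
      congr 1
      ring
    have h2 : 0 ≤ N / (R * ‖q1.2 - q2.2‖) := by positivity
    have h3 : (N / (R * ‖q1.2 - q2.2‖)) ^ Kd ≤ R ^ (-(|M| + 1)) := by
      refine (pow_le_pow_left₀ h2 h1 Kd).trans ?_
      rw [← Real.rpow_natCast, ← Real.rpow_mul hRpos.le]
      refine Real.rpow_le_rpow_of_exponent_le hR1 ?_
      have : 0 ≤ (Kd : ℝ) * η := by positivity
      nlinarith
    have h4 : (2 * s) ^ d ≤ 2 ^ d := pow_le_pow_left₀ (by positivity) (by linarith) d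
    have h5 : 2 ^ d * Q1 ≤ R := by
      refine le_trans ?_ (hQR.trans hRη1)
      rw [hQ]
      have : 0 ≤ Q1 * Cv := by positivity
      linarith
    have h6 : R ^ (-(|M| + 1)) * R ≤ R ^ (-M) := by
      have e3 : R ^ (-(|M| + 1)) * R = R ^ (-(|M| + 1)) * R ^ (1 : ℝ) := by rw [Real.rpow_one]
      rw [e3, ← Real.rpow_add hRpos]
      refine Real.rpow_le_rpow_of_exponent_le hR1 ?_
      have := le_abs_self M
      linarith
    have h7 : 0 ≤ R ^ (-(|M| + 1)) := Real.rpow_nonneg hRpos.le _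
    calc (2 * s) ^ d * (m1 * m2 * Q1) * (N / (R * ‖q1.2 - q2.2‖)) ^ Kd
        ≤ 2 ^ d * (m1 * m2 * Q1) * R ^ (-(|M| + 1)) := by
          refine mul_le_mul (mul_le_mul_of_nonneg_right h4 (by positivity)) h3 (by positivity) (by positivity)
      _ = m1 * m2 * (R ^ (-(|M| + 1)) * (2 ^ d * Q1)) := by ring
      _ ≤ m1 * m2 * (R ^ (-(|M| + 1)) * R) := mul_le_mul_of_nonneg_left (mul_le_mul_of_nonneg_left h5 h7) hm
      _ ≤ m1 * m2 * R ^ (-M) := mul_le_mul_of_nonneg_left h6 hm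

end

end Pool.Agent.VD
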